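import Pool.Agent.H.MP_6350a9_co.Low

namespace Pool.Agent.H.MP_956764_co

open Classical Pool.Agent.H.MP_6350a9_co

variable {g : ℕ} {w : ℕ → Bool}

noncomputable def Ψ (g : ℕ) (w : ℕ → Bool) (N : ℕ) : ZMod 2 := ψ g w N N

lemma ψ_mono {y β : ℕ} (hβ : y < 2 ^ β) {M : ℕ} (hM : β ≤ M) : ψ g w M y = ψ g w β y := by
  obtain ⟨c, rfl⟩ := Nat.exists_eq_add_of_le hM
  induction c with
  | zero => rfl
  | succ c ih =>
    rw [← add_assoc, ψ_succ (hβ.trans_le (Nat.pow_le_pow_right (by norm_num) (by omega))),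
      ih (by omega)]

lemma Ψ_eq {N M : ℕ} (h : N < 2 ^ M) : Ψ g w N = ψ g w M N := by
  unfold Ψ
  rw [← ψ_mono h (Nat.le_add_right M N), ← ψ_mono Nat.lt_two_pow_self (Nat.le_add_left N M)]

lemma Ψ_ge {N M : ℕ} (h : N ≤ M) : Ψ g w N = ψ g w M N :=
  Ψ_eq (h.trans_lt Nat.lt_two_pow_self)

lemma Ψ_zero : Ψ g w 0 = 0 := two_eq _

lemma Ψ_sep {r L L' H H' : ℕ} (hL : L < 2 ^ r) (hL' : L' < 2 ^ r) (h : H % 2 ^ g = H' % 2 ^ g) :
    Ψ g w (L + 2 ^ r * H) + Ψ g w (L + 2 ^ r * H') =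
      Ψ g w (L' + 2 ^ r * H) + Ψ g w (L' + 2 ^ r * H') := by
  set M := L + L' + 2 ^ r * H + 2 ^ r * H'
  rw [Ψ_ge (M := M) (by omega), Ψ_ge (M := M) (by omega), Ψ_ge (M := M) (by omega),
    Ψ_ge (M := M) (by omega)]
  unfold ψ
  linear_combination sep (g := g) (w := w) M hL hL' h + two_eq (Φ g w M (L + 2 ^ r * H')) -
    two_eq (Φ g w M (L' + 2 ^ r * H'))

lemma Ψ_shift (t y : ℕ) : Ψ g w (2 ^ t * (2 ^ g * y)) = Ψ g w (2 ^ g * y) := by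
  rw [Ψ_eq (M := t + 2 ^ g * y) (by
    rw [pow_add]; exact Nat.mul_lt_mul_of_pos_left Nat.lt_two_pow_self (by positivity))]
  exact ψ_shift (by simp) Nat.lt_two_pow_self _ _ le_rfl

lemma Ψ_add {r L : ℕ} (hL : L < 2 ^ r) (H : ℕ) :
    Ψ g w (L + 2 ^ r * (2 ^ g * H)) = Ψ g w L + Ψ g w (2 ^ g * H) := by
  have h := Ψ_sep (g := g) (w := w) (L' := 0) (H := 2 ^ g * H) (H' := 0) hL (by positivity) (by simp)
  simp only [mul_zero, add_zero, zero_add, Ψ_zero, Ψ_shift] at h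
  linear_combination h - two_eq (Ψ g w L) + 2 * two_eq (Ψ g w L) - two_eq (Ψ g w L) +
    two_eq (Ψ g w L) - two_eq (Ψ g w L) - two_eq (Ψ g w L)

lemma base2 {x : ℕ} (hx : Ψ g w (2 ^ g * (2 ^ g * (2 * x))) = 1) (r : ℕ) :
    ∃ m0 m1, Ψ g w (2 ^ r * (2 ^ g * (m0 + 1)) - 1) + Ψ g w (2 ^ r * (2 ^ g * (m0 + 1))) +
      (Ψ g w (2 ^ r * (2 ^ g * (m1 + 1)) - 1) + Ψ g w (2 ^ r * (2 ^ g * (m1 + 1)))) = 1 := by
  by_contra hc
  push Not at hc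
  have z : ∀ a : ZMod 2, a ≠ 1 → a = 0 := by decide
  simp only [Ψ_shift] at hc
  have hp : 0 < 2 ^ (r + g) := by positivity
  have e : ∀ m, 2 ^ r * (2 ^ g * (m + 1)) - 1 = (2 ^ (r + g) - 1) + 2 ^ (r + g) * m := by
    intro m
    have : 2 ^ r * (2 ^ g * (m + 1)) = 2 ^ (r + g) + 2 ^ (r + g) * m := by ring
    omega
  have e2 : ∀ m, Ψ g w (0 + 2 ^ (r + g) * m) = Ψ g w (2 ^ g * m) := by
    intro m
    rw [zero_add, pow_add, mul_assoc, Ψ_shift]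
  have h1 : ∀ m, Ψ g w (2 ^ g * (m + 2 ^ g)) + Ψ g w (2 ^ g * m) =
      Ψ g w (2 ^ g * (0 + 2 ^ g)) + Ψ g w (2 ^ g * 0) := by
    intro m
    induction m with
    | zero => rfl
    | succ m ih =>
      have a1 := z _ (hc (m + 2 ^ g) m)
      have a2 := Ψ_sep (g := g) (w := w) (r := r + g) (L := 2 ^ (r + g) - 1) (L' := 0)
        (H := m + 2 ^ g) (H' := m) (by omega) hp (by simp)
      rw [e, e] at a1
      rw [e2, e2] at a2
      rw [show m + 1 + 2 ^ g = m + 2 ^ g + 1 by ring]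
      linear_combination a1 - a2 + ih - two_eq (Ψ g w (2 ^ g * (m + 2 ^ g))) -
        two_eq (Ψ g w (2 ^ g * m))
  have h2 : ∀ x, Ψ g w (2 ^ g * (2 ^ g * (2 * x))) = 0 := by
    intro x
    induction x with
    | zero => simp [Ψ_zero]
    | succ x ih =>
      have a1 := h1 (2 ^ g * (2 * x))
      have a2 := h1 (2 ^ g * (2 * x) + 2 ^ g)
      rw [show 2 ^ g * (2 * (x + 1)) = 2 ^ g * (2 * x) + 2 ^ g + 2 ^ g by ring]
      linear_combination a2 - a1 + ih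
  rw [h2] at hx
  exact absurd hx (by decide)

lemma solve {l : ℕ} (hl : Odd l) (K A ρ : ℕ) : ∃ Y, l * Y + A ≡ ρ [MOD 2 ^ K] := by
  have hc : Nat.Coprime l (2 ^ K) := Nat.Coprime.pow_right _ ((Nat.coprime_two_right).2 hl)
  have : NeZero (2 ^ K) := ⟨by positivity⟩
  let u := ZMod.unitOfCoprime _ hc
  refine ⟨((u⁻¹ : (ZMod (2 ^ K))ˣ) * ((ρ : ZMod (2 ^ K)) - A)).val, ?_⟩
  rw [← ZMod.natCast_eq_natCast_iff, Nat.cast_add, Nat.cast_mul, ZMod.natCast_zmod_val,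
    ← ZMod.coe_unitOfCoprime _ hc, ← mul_assoc, Units.mul_inv, one_mul, sub_add_cancel]

lemma pick {l : ℕ} (hl : Odd l) (r m : ℕ) : ∃ Y u, l * Y + 1 = 2 ^ g * u ∧
    Ψ g w (2 ^ r * (l * Y + 1) - 1) + Ψ g w (2 ^ r * (l * Y + 1)) =
      Ψ g w (2 ^ r * (2 ^ g * (m + 1)) - 1) + Ψ g w (2 ^ r * (2 ^ g * (m + 1))) := by
  obtain ⟨Y, hY⟩ := solve hl (g + (m + 1) + g) 1 (2 ^ g * (m + 1))
  have h0 : 2 ^ g * (m + 1) < 2 ^ (g + (m + 1)) := by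
    rw [pow_add]; exact Nat.mul_lt_mul_of_pos_left Nat.lt_two_pow_self (by positivity)
  have h1 : 2 ^ g * (m + 1) < 2 ^ (g + (m + 1) + g) :=
    h0.trans_le (Nat.pow_le_pow_right (by norm_num) (by omega))
  have h2 := Nat.mod_add_div (l * Y + 1) (2 ^ (g + (m + 1) + g))
  rw [hY, Nat.mod_eq_of_lt h1] at h2
  set t := (l * Y + 1) / 2 ^ (g + (m + 1) + g)
  refine ⟨Y, m + 1 + 2 ^ (m + 1 + g) * t, by rw [← h2]; ring, ?_⟩
  have h3 : 2 ^ r * (2 ^ g * (m + 1)) < 2 ^ (r + (g + (m + 1))) := by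
    rw [pow_add 2 r]; exact Nat.mul_lt_mul_of_pos_left h0 (by positivity)
  have h4 : 0 < 2 ^ r * (2 ^ g * (m + 1)) := by positivity
  have e1 : 2 ^ r * (l * Y + 1) =
      2 ^ r * (2 ^ g * (m + 1)) + 2 ^ (r + (g + (m + 1))) * (2 ^ g * t) := by
    rw [← h2]; ring
  have e2 : 2 ^ r * (l * Y + 1) - 1 =
      (2 ^ r * (2 ^ g * (m + 1)) - 1) + 2 ^ (r + (g + (m + 1))) * (2 ^ g * t) := by
    rw [e1]; omega
  rw [e2, e1, Ψ_add h3, Ψ_add (by omega)]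
  linear_combination two_eq (Ψ g w (2 ^ g * t))

lemma tri {x : ℕ} (hx : Ψ g w (2 ^ g * (2 ^ g * (2 * x))) = 1) {l : ℕ} (hl : Odd l) :
    ∃ Y, (∀ j, j < l → Ψ g w (2 ^ g * (j * Y)) = 0) ∧ Ψ g w (2 ^ g * (l * Y)) = 1 := by
  have hl0 : 0 < l := hl.pos
  set s := l + l with hs
  have hp : l * l < 2 ^ s := by
    rw [hs, pow_add]
    exact Nat.mul_lt_mul'' Nat.lt_two_pow_self Nat.lt_two_pow_self
  set z := (2 ^ s - 1) / l with hz
  have z1 : l * z + (2 ^ s - 1) % l = 2 ^ s - 1 := Nat.div_add_mod _ _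
  have z2 := Nat.mod_lt (2 ^ s - 1) hl0
  have z3 : l ≤ z := (Nat.le_div_iff_mul_le hl0).2 (by omega)
  have z4 : l ≤ l * l := Nat.le_mul_self l
  obtain ⟨m0, m1, hm⟩ := base2 hx (g + s)
  obtain ⟨Y0, u0, a0, b0⟩ := pick (g := g) (w := w) hl (g + s) m0
  obtain ⟨Y1, u1, a1, b1⟩ := pick (g := g) (w := w) hl (g + s) m1
  have c1 : l * Y0 + 1 ≡ l * Y1 + 1 [MOD 2 ^ g] := by
    rw [a0, a1]; unfold Nat.ModEq; simp
  have c2 : l * Y0 ≡ l * Y1 [MOD 2 ^ g] := Nat.ModEq.add_right_cancel' 1 c1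
  have c3 : Y0 ≡ Y1 [MOD 2 ^ g] := Nat.ModEq.cancel_left_of_coprime
    (Nat.Coprime.symm (Nat.Coprime.pow_right _ ((Nat.coprime_two_right).2 hl))) c2
  set R := 2 ^ g * (l * (z + 1 + 2 ^ s * Y0 + 2 ^ s * Y1)) with hR
  have split : ∀ j, j ≤ l → Ψ g w (2 ^ g * (j * ((z + 2 ^ s * Y0) + 2 ^ R * ((z + 2 ^ s * Y1) +
      2 ^ R * ((z + 1 + 2 ^ s * Y0) + 2 ^ R * (z + 1 + 2 ^ s * Y1)))))) =
      Ψ g w (2 ^ g * (j * z) + 2 ^ (g + s) * (j * Y0)) +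
      Ψ g w (2 ^ g * (j * z) + 2 ^ (g + s) * (j * Y1)) +
      (Ψ g w (2 ^ g * (j * (z + 1)) + 2 ^ (g + s) * (j * Y0)) +
      Ψ g w (2 ^ g * (j * (z + 1)) + 2 ^ (g + s) * (j * Y1))) := by
    intro j hj
    have hb : ∀ y, y ≤ z + 1 + 2 ^ s * Y0 + 2 ^ s * Y1 → 2 ^ g * (j * y) < 2 ^ R := fun y hy =>
      lt_of_le_of_lt (by rw [hR]; gcongr) Nat.lt_two_pow_self
    have d : ∀ y H, 2 ^ g * (j * (y + 2 ^ R * H)) = 2 ^ g * (j * y) + 2 ^ R * (2 ^ g * (j * H)) := by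
      intro y H; ring
    have d2 : ∀ a Y, 2 ^ g * (j * (a + 2 ^ s * Y)) = 2 ^ g * (j * a) + 2 ^ (g + s) * (j * Y) := by
      intro a Y; ring
    rw [d, Ψ_add (hb _ (by omega)), d, Ψ_add (hb _ (by omega)), d, Ψ_add (hb _ (by omega)),
      d2, d2, d2, d2]
    ring
  have lt1 : ∀ a, a < 2 ^ s → 2 ^ g * a < 2 ^ (g + s) := fun a ha => by
    rw [pow_add]; exact Nat.mul_lt_mul_of_pos_left ha (by positivity)
  refine ⟨(z + 2 ^ s * Y0) + 2 ^ R * ((z + 2 ^ s * Y1) +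
      2 ^ R * ((z + 1 + 2 ^ s * Y0) + 2 ^ R * (z + 1 + 2 ^ s * Y1))), fun j hj => ?_, ?_⟩
  · rw [split j hj.le]
    have j1 : j * (z + 1) < 2 ^ s := by
      have : (j + 1) * (z + 1) ≤ l * (z + 1) := Nat.mul_le_mul_right _ hj
      have e1 : (j + 1) * (z + 1) = j * (z + 1) + z + 1 := by ring
      have e2 : l * (z + 1) = l * z + l := by ring
      omega
    have j0 : j * z < 2 ^ s := lt_of_le_of_lt (Nat.mul_le_mul_left _ (by omega)) j1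
    rw [Ψ_sep (lt1 _ j0) (lt1 _ j1) (c3.mul_left j)]
    exact two_eq _
  · rw [split l le_rfl]
    obtain ⟨a, ha⟩ : ∃ a, l * (z + 1) = a + 2 ^ s := ⟨l * (z + 1) - 2 ^ s, by
      have e2 : l * (z + 1) = l * z + l := by ring
      omega⟩
    have ha' : a < 2 ^ s := by
      have e2 : l * (z + 1) = l * z + l := by ring
      omega
    have e3 : ∀ Y, 2 ^ g * (l * (z + 1)) + 2 ^ (g + s) * (l * Y) =
        2 ^ g * a + 2 ^ (g + s) * (l * Y + 1) := by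
      intro Y; rw [ha]; ring
    have hp2 : 0 < 2 ^ (g + s) := by positivity
    have e4 : ∀ Y, 2 ^ (g + s) * (l * Y + 1) - 1 = (2 ^ (g + s) - 1) + 2 ^ (g + s) * (l * Y) := by
      intro Y
      rw [mul_add]; omega
    rw [e3, e3, Ψ_sep (L' := 0) (lt1 _ ha') hp2 c1,
      Ψ_sep (L' := 2 ^ (g + s) - 1) (lt1 (l * z) (by omega)) (by omega) c2, ← e4, ← e4,
      zero_add, zero_add]
    linear_combination hm + b0 + b1

lemma size_add {L r H : ℕ} (hL : L < 2 ^ r) (hH : 0 < H) : (L + 2 ^ r * H).size = r + H.size := by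
  apply le_antisymm
  · rw [Nat.size_le]
    exact lt_two hL (Nat.lt_size_self H)
  · obtain ⟨s, hs⟩ : ∃ s, H.size = s + 1 := ⟨H.size - 1, by
      have := Nat.size_pos.2 hH
      omega⟩
    have := Nat.lt_size.1 (show s < H.size by omega)
    rw [hs, ← add_assoc, Nat.succ_le_iff, Nat.lt_size, pow_add]
    exact (Nat.mul_le_mul_left _ this).trans (Nat.le_add_left _ _)

lemma free {x : ℕ} (hx : Ψ g w (2 ^ g * (2 ^ g * (2 * x))) = 1) (c : ZMod 2) (τ : ℕ → ZMod 2)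
    (l : ℕ) : ∃ D, 0 < D ∧ ∀ j, j < l → Odd j →
      Ψ g w (2 ^ g * (j * D)) + c * ((j * D).size : ℕ) = τ j := by
  induction l with
  | zero => exact ⟨1, one_pos, fun j hj => absurd hj (by omega)⟩
  | succ l ih =>
    obtain ⟨D, hD, h⟩ := ih
    by_cases hc : Odd l → Ψ g w (2 ^ g * (l * D)) + c * ((l * D).size : ℕ) = τ l
    · refine ⟨D, hD, fun j hj ho => ?_⟩
      rcases Nat.lt_succ_iff_lt_or_eq.1 hj with h1 | rfl
      · exact h j h1 ho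
      · exact hc ho
    · push Not at hc
      obtain ⟨Y, y1, y2⟩ := tri hx hc.1
      set R := 2 ^ g * (l * Y) with hR
      have key : ∀ j, j ≤ l → Odd j → Ψ g w (2 ^ g * (j * (Y + 2 ^ (R + R) * D))) +
          c * ((j * (Y + 2 ^ (R + R) * D)).size : ℕ) = Ψ g w (2 ^ g * (j * Y)) +
          (Ψ g w (2 ^ g * (j * D)) + c * ((j * D).size : ℕ)) := by
        intro j hj ho
        have b1 : 2 ^ g * (j * Y) < 2 ^ (R + R) :=
          lt_of_le_of_lt (le_trans (by rw [hR]; gcongr) (Nat.le_add_right R R)) Nat.lt_two_pow_self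
        have b2 : j * Y < 2 ^ (R + R) :=
          lt_of_le_of_lt (Nat.le_mul_of_pos_left _ (by positivity)) b1
        have e1 : 2 ^ g * (j * (Y + 2 ^ (R + R) * D)) =
            2 ^ g * (j * Y) + 2 ^ (R + R) * (2 ^ g * (j * D)) := by ring
        have e2 : j * (Y + 2 ^ (R + R) * D) = j * Y + 2 ^ (R + R) * (j * D) := by ring
        rw [e1, Ψ_add b1, e2, size_add b2 (Nat.mul_pos ho.pos hD)]
        push_cast
        linear_combination c * two_eq (R : ZMod 2)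
      refine ⟨Y + 2 ^ (R + R) * D, by positivity, fun j hj ho => ?_⟩
      rw [key j (by omega) ho]
      rcases Nat.lt_succ_iff_lt_or_eq.1 hj with h1 | rfl
      · rw [y1 j h1, zero_add, h j h1 ho]
      · rw [y2]
        have z : ∀ a b : ZMod 2, a ≠ b → 1 + a = b := by decide
        exact z _ _ hc.2

lemma free' {x : ℕ} (hx : Ψ g w (2 ^ g * (2 ^ g * (2 * x))) = 1) (c : ZMod 2) (τ : ℕ → ZMod 2)
    (l ρ : ℕ) : ∃ d, 0 < d ∧ d ≡ ρ [MOD 2 ^ g] ∧ ∀ j, j < l → Odd j →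
      Ψ g w (j * d) + c * ((j * d).size : ℕ) = τ j := by
  obtain ⟨D, hD, h⟩ := free hx c (fun j => τ j - Ψ g w (j * ρ) - c * ((l * ρ + g : ℕ) : ZMod 2)) l
  refine ⟨ρ + 2 ^ g * (2 ^ (l * ρ) * D), by positivity, mod_g _ _, fun j hj ho => ?_⟩
  have b1 : j * ρ < 2 ^ (l * ρ) :=
    lt_of_le_of_lt (Nat.mul_le_mul_right _ hj.le) Nat.lt_two_pow_self
  have e1 : j * (ρ + 2 ^ g * (2 ^ (l * ρ) * D)) = j * ρ + 2 ^ (l * ρ) * (2 ^ g * (j * D)) := by ring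
  have e2 : j * (ρ + 2 ^ g * (2 ^ (l * ρ) * D)) = j * ρ + 2 ^ (l * ρ + g) * (j * D) := by ring
  have h1 : Ψ g w (j * (ρ + 2 ^ g * (2 ^ (l * ρ) * D))) =
      Ψ g w (j * ρ) + Ψ g w (2 ^ g * (j * D)) := by rw [e1, Ψ_add b1]
  rw [h1, e2, size_add (b1.trans_le (Nat.pow_le_pow_right (by norm_num) (by omega)))
    (Nat.mul_pos ho.pos hD)]
  have := h j hj ho
  push_cast at this ⊢
  linear_combination this

end Pool.Agent.H.MP_956764_co
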